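import Pool.Agent.H88.L.W552.Fr

/-!
# The conjecture A and the lowering operator

For a divisor with hard Lefschetz, the conjecture A holds if and only if the lowering operator of
the Lefschetz triple maps sums of algebraic classes to sums of algebraic classes.
-/

set_option autoImplicit false

open CategoryTheory AlgebraicGeometry

universe u v

namespace Pool.Agent.TH132.A

open Pool.Agent.H914 Pool.Agent.H914.VarClass Pool.Agent.H914.VarClass.Obj
  Pool.Agent.H914.WeilCohomology Pool.Agent.H281R3.HT Pool.Agent.W552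

variable {k : Type u} [Field k] {𝒱 : VarClass k} {ops : CycleOps 𝒱}
  {W : WeilCohomology.{u, v} ops} {X Y Z : 𝒱.Obj}

/-- `f` completes the product with the class of `D` and the weight operator to an `sl2`-triple. -/
def Low (W : WeilCohomology.{u, v} ops) (X : 𝒱.Obj) (D : X.Cycles)
    (f : Module.End W.K (W.H X)) : Prop :=
  Sl2 (wt (W.isInternal X) X.dim) (LinearMap.mulLeft W.K (W.cl X D)) f

lemma exists_low {D : X.Cycles} (hD : X.IsCyc 1 D) (hHL : HardLefschetz W X D) :
    ∃ f, Low W X D f := by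
  obtain ⟨f, t, -, -⟩ := exists_sl2 (W.isInternal X) (mulLeft_isHom hD) W_hbd hHL
  exact ⟨f, t⟩

/-- The operator `f` preserves the sums of algebraic classes. -/
def Stable (W : WeilCohomology.{u, v} ops) (X : 𝒱.Obj) (f : Module.End W.K (W.H X)) : Prop :=
  ∀ x, AS W X x → AS W X (f x)

lemma wt_alg {i : ℕ} (hi : 2 * i ≤ X.dim) {a : W.H X} (ha : a ∈ algClasses W X i) :
    wt (W.isInternal X) X.dim a = -((X.dim - 2 * i : ℕ) : W.K) • a := by
  rw [wt, scal_apply _ _ (alg_gr ha), node]
  congr 1
  rw [Nat.cast_sub hi]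
  push_cast
  ring

section

variable {D : X.Cycles} {f : Module.End W.K (W.H X)}

/-- The vectors `D ^ t v` with `v` primitive and algebraic. -/
def strings (W : WeilCohomology.{u, v} ops) (X : 𝒱.Obj) (D : X.Cycles)
    (f : Module.End W.K (W.H X)) : AddSubmonoid (W.H X) :=
  AddSubmonoid.closure {y | ∃ (i t : ℕ) (w : W.H X), w ∈ algClasses W X i ∧ 2 * i ≤ X.dim ∧
    f w = 0 ∧ y = ((LinearMap.mulLeft W.K (W.cl X D)) ^ t) w}

lemma strings_e {y : W.H X} (hy : y ∈ strings W X D f) (s : ℕ) :
    ((LinearMap.mulLeft W.K (W.cl X D)) ^ s) y ∈ strings W X D f := by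
  induction hy using AddSubmonoid.closure_induction with
  | mem y hy =>
    obtain ⟨i, t, w, hw, hi, hf, rfl⟩ := hy
    refine AddSubmonoid.subset_closure ⟨i, s + t, w, hw, hi, hf, ?_⟩
    rw [pow_add, Module.End.mul_apply]
  | zero => rw [map_zero]; exact AddSubmonoid.zero_mem _
  | add x y _ _ hx hy => rw [map_add]; exact AddSubmonoid.add_mem _ hx hy

lemma e_pow_alg (hD : X.IsCyc 1 D) (s : ℕ) {i : ℕ} {a : W.H X} (ha : a ∈ algClasses W X i) :
    ((LinearMap.mulLeft W.K (W.cl X D)) ^ s) a ∈ algClasses W X (i + s) := by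
  obtain ⟨z, hz, rfl⟩ := ha
  exact ⟨divPow ops D s z, divPow_mem hD s hz, cl_divPow D s z⟩

lemma mem_strings_low (hD : X.IsCyc 1 D) (t : Low W X D f) (hA : LefschetzA W X D) :
    ∀ i, 2 * i ≤ X.dim → ∀ x ∈ algClasses W X i, x ∈ strings W X D f := by
  intro i
  induction i with
  | zero =>
    intro h0 x hx
    refine AddSubmonoid.subset_closure ⟨0, 0, x, hx, h0, ?_, by simp⟩
    refine Sl2.f_eq_zero t (wt_alg h0 hx) ?_
    have h1 := alg_gr (e_pow_alg (W := W) hD (X.dim - 2 * 0 + 1) hx)
    rw [W.gr_eq_bot X _ (by omega)] at h1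
    exact (Submodule.mem_bot _).1 h1
  | succ i ih =>
    intro h0 x hx
    have h1 := e_pow_alg (W := W) hD (X.dim - 2 * (i + 1) + 1) hx
    rw [show i + 1 + (X.dim - 2 * (i + 1) + 1) = X.dim - i by omega] at h1
    obtain ⟨z, hz, hzx⟩ := h1
    obtain ⟨z', hz', hzz⟩ := hA i (by omega) z hz
    have hy : W.cl X z' ∈ algClasses W X i := ⟨z', hz', rfl⟩
    set L := LinearMap.mulLeft W.K (W.cl X D) with hL
    have hey : L (W.cl X z') ∈ algClasses W X (i + 1) := by
      have := e_pow_alg (W := W) hD 1 hy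
      rwa [pow_one] at this
    have hp : x - L (W.cl X z') ∈ algClasses W X (i + 1) := alg_sub hx hey
    have h2 : f (x - L (W.cl X z')) = 0 := by
      refine Sl2.f_eq_zero t (wt_alg h0 hp) ?_
      rw [cl_divPow, hzx] at hzz
      rw [map_sub, ← hL, ← hzz, ← Module.End.mul_apply, ← pow_succ,
        show X.dim - 2 * (i + 1) + 1 + 1 = X.dim - 2 * i by omega, sub_self]
    have h3 : x = (L ^ 0) (x - L (W.cl X z')) + (L ^ 1) (W.cl X z') := by simp
    rw [h3]
    exact AddSubmonoid.add_mem _ (AddSubmonoid.subset_closure ⟨i + 1, 0, _, hp, h0, h2, rfl⟩)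
      (strings_e (ih (by omega) _ hy) 1)

lemma mem_strings (hD : X.IsCyc 1 D) (t : Low W X D f) (hA : LefschetzA W X D) {x : W.H X}
    (hx : AS W X x) : x ∈ strings W X D f := by
  refine AS.ind (p := fun x => x ∈ strings W X D f) ?_
    (fun x y hx hy => AddSubmonoid.add_mem _ hx hy) hx
  intro i x hx
  by_cases h1 : 2 * i ≤ X.dim
  · exact mem_strings_low hD t hA i h1 x hx
  by_cases h2 : i ≤ X.dim
  · obtain ⟨z, hz, rfl⟩ := hx
    obtain ⟨z', hz', hzz⟩ := hA (X.dim - i) (by omega) z (by
      rwa [show X.dim - (X.dim - i) = i by omega])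
    rw [← hzz, cl_divPow]
    exact strings_e (mem_strings_low hD t hA (X.dim - i) (by omega) _ ⟨z', hz', rfl⟩) _
  · have h3 := alg_gr hx
    rw [W.gr_eq_bot X _ (by omega)] at h3
    rw [(Submodule.mem_bot _).1 h3]
    exact AddSubmonoid.zero_mem _

/-- **The conjecture A implies that the lowering operator preserves algebraic classes.** -/
theorem stable_of_lefschetzA (hD : X.IsCyc 1 D) (t : Low W X D f) (hA : LefschetzA W X D) :
    Stable W X f := by
  intro x hx
  have h1 := mem_strings hD t hA hx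
  clear hx
  induction h1 using AddSubmonoid.closure_induction with
  | mem y hy =>
    obtain ⟨i, s, w, hw, hi, hf, rfl⟩ := hy
    cases s with
    | zero => rw [pow_zero, Module.End.one_apply, hf]; exact AS.zero
    | succ s =>
      rw [Sl2.f_e_pow t hf (wt_alg hi hw) s]
      have h2 := (AS.of (e_pow_alg (W := W) hD s hw)).smul
        (((s : ℚ) + 1) * (((X.dim - 2 * i : ℕ) : ℚ) - s))
      push_cast at h2 ⊢
      exact h2
  | zero => rw [map_zero]; exact AS.zero
  | add x y _ _ hx' hy' => rw [map_add]; exact hx'.add hy'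

/-- **If the lowering operator preserves algebraic classes then the conjecture A holds.** -/
theorem lefschetzA_of_stable (hD : X.IsCyc 1 D) (t : Low W X D f) (hf : Stable W X f) :
    LefschetzA W X D := by
  have hfg : ∀ {i : ℕ} {a : W.H X}, a ∈ W.gr X i →
      (∀ j, j + 2 = i → f a ∈ W.gr X j) ∧ (i < 2 → f a = 0) := by
    intro i a ha
    have h1 := congrArg (fun G => G a) t.hf
    simp only [LinearMap.sub_apply, Module.End.mul_apply, LinearMap.neg_apply, Fr.wt_gr ha,
      map_smul] at h1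
    have h2 : (2 : Module.End W.K (W.H X)) (f a) = (2 : W.K) • f a := by
      rw [ofNat_smul_eq_nsmul]; rfl
    have h3 : wt (W.isInternal X) X.dim (f a) = ((i : W.K) - X.dim - 2) • f a := by
      rw [h2, sub_eq_iff_eq_add] at h1
      rw [h1, ← neg_smul, ← add_smul]
      congr 1
      ring
    have h4 := mem_gr_of_wt (W.isInternal X) W_hbd h3
    constructor
    · intro j hj
      apply h4.1
      rw [← hj]
      push_cast
      ring
    · intro hi
      apply h4.2
      intro j h0
      have : (i : W.K) = (j + 2 : ℕ) := by push_cast; linear_combination h0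
      have : i = j + 2 := by exact_mod_cast this
      omega
  intro j hj z hz
  set P : ℤ → W.H X → Prop := fun d x => x = 0 ∨
    ∃ c : ℕ, (2 * c : ℤ) = X.dim + d ∧ x ∈ algClasses W X c with hP
  obtain ⟨x, hx, hxz⟩ := exists_preimage' t (P := P) (fun d => Or.inl rfl)
    (by
      rintro d x y (rfl | ⟨c, hc, hx⟩) (rfl | ⟨c', hc', hy⟩)
      · exact Or.inl (add_zero 0)
      · rw [zero_add]; exact Or.inr ⟨c', hc', hy⟩
      · rw [add_zero]; exact Or.inr ⟨c, hc, hx⟩
      · obtain rfl : c = c' := by omega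
        exact Or.inr ⟨c, hc, alg_add hx hy⟩)
    (by
      rintro q d x (rfl | ⟨c, hc, hx⟩)
      · exact Or.inl (smul_zero _)
      · exact Or.inr ⟨c, hc, alg_smul q hx⟩)
    (by
      rintro d x (rfl | ⟨c, hc, hx⟩)
      · exact Or.inl (map_zero _)
      · refine Or.inr ⟨c + 1, by push_cast; omega, ?_⟩
        rw [add_comm c 1]
        exact alg_mul ⟨D, hD, rfl⟩ hx)
    (by
      rintro d x (rfl | ⟨c, hc, hx⟩)
      · exact Or.inl (map_zero _)
      · have h1 := hfg (alg_gr hx)
        rcases Nat.eq_zero_or_pos c with rfl | h0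
        · exact Or.inl (h1.2 (by omega))
        · refine Or.inr ⟨c - 1, by omega, ?_⟩
          exact (hf x (AS.of hx)).alg (h1.1 (2 * (c - 1)) (by omega)))
    (by
      rintro d x (rfl | ⟨c, hc, hx⟩)
      · rw [map_zero, smul_zero]
      · rw [Fr.wt_gr (alg_gr hx)]
        congr 1
        have : ((2 * c : ℤ) : W.K) = ((X.dim + d : ℤ) : W.K) := by rw [hc]
        push_cast at this ⊢
        linear_combination this)
    (X.dim - 2 * j) (y := W.cl X z)
    (Or.inr ⟨X.dim - j, by omega, ⟨z, hz, rfl⟩⟩)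
  rcases hx with rfl | ⟨c, hc, z', hz', rfl⟩
  · refine ⟨0, SmVar.IsCyc.zero _ _, ?_⟩
    rw [cl_divPow, map_zero]
    exact hxz
  · obtain rfl : c = j := by omega
    exact ⟨z', hz', by rw [cl_divPow]; exact hxz⟩

theorem stable_iff (hD : X.IsCyc 1 D) (t : Low W X D f) : Stable W X f ↔ LefschetzA W X D :=
  ⟨lefschetzA_of_stable hD t, stable_of_lefschetzA hD t⟩

end

end Pool.Agent.TH132.A
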